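import Mathlib
import Pool.Agent.Run7.h123.LC.LinG
import Pool.Agent.H387R3.ZF.W4

set_option autoImplicit false

/-!
# The weights `0, 3, 4` over the fields of numbers with simple expansions

Let `S` be an infinite set of integers and `K_b` the field generated by the real numbers with simple
expansions (`O(m)` different blocks of length `m`, `m ∈ S`) in bases dependent on `b`.

For all bases `b` independent of at most two bases the sum of the spaces spanned over `K_b` by the multiple
zeta values of weights `0, 1, 3, 4` is direct; that is, `1, ζ(3), π ^ 4` are linearly independent over `K_b`.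
The starting file `DirectZeroThreeFour` of this folder has `ℚ` in place of `K_b`.

The proof uses the measure of linear independence of `1, ζ(3), π ^ 4` of the starting files and the
theorem that `n` numbers with such a measure are linearly independent over one of any `n`
fields `K_G` for independent groups `G` (`Run7/h123/LC/LinN.lean`; a matroid argument of Rado type for
linearly disjoint fields of hyperreal numbers, `LinL.lean`).
-/

namespace Pool.Agent.Results.MP_4d52ff_nt.DirectnessOverSimpleFields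

/-- the number of different blocks of length `m` in the sequence `w` -/
noncomputable def blocks {A : Type} (w : ℕ → A) (m : ℕ) : ℕ :=
  (Set.range fun i => fun j : Fin m => w (i + j)).ncard

/-- the digit with index `k + 1` after the point in the base `b` expansion of `x` -/
noncomputable def digit (b : ℕ) (x : ℝ) (k : ℕ) : ℤ := ⌊x * (b : ℝ) ^ (k + 1)⌋ % (b : ℤ)

/-- the sums of the series `∑ γ(w_0) ⋯ γ(w_{k-1}) c(w_k)`, where the `w_k` are in a finite set `A`,
`γ(a)` and `c(a)` are rational, `|γ(a)| < 1`, `|γ(a)|` is in `G` and the sequence `w` has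
at most `C m` different blocks of length `m`, for all `m ∈ S` -/
def Series (S : Set ℕ) (G : Subgroup ℚˣ) : Set ℝ :=
  {x | ∃ (A : Type) (_ : Finite A) (γ c : A → ℚ) (w : ℕ → A) (C : ℝ),
    (∀ a, ∃ u ∈ G, |γ a| = ((u : ℚˣ) : ℚ)) ∧ (∀ a, |γ a| < 1) ∧
    HasSum (fun n => (∏ k ∈ Finset.range n, (γ (w k) : ℝ)) * (c (w n) : ℝ)) x ∧
    ∀ m ∈ S, (blocks w m : ℝ) ≤ C * m}

/-- the field generated by `Series S G` -/
noncomputable def K (S : Set ℕ) (G : Subgroup ℚˣ) : Subfield ℝ := Subfield.closure (Series S G)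

/-- the group of the positive rational numbers `u` such that `u ^ m = b ^ k` for some integers
`m ≥ 1` and `k` -/
def group (b : ℕ) : Subgroup ℚˣ := Pool.Agent.Run7.h123.LC.rad b

lemma mem_group {b : ℕ} {u : ℚˣ} : u ∈ group b ↔ 0 < (u : ℚ) ∧
    ∃ (m : ℕ) (k : ℤ), 1 ≤ m ∧ (u : ℚ) ^ m = (b : ℚ) ^ k := Iff.rfl

/-- multiplicatively independent integers -/
def Independent {r : ℕ} (b : Fin r → ℕ) : Prop :=
  ∀ k : Fin r → ℤ, ∏ i, (b i : ℚ) ^ k i = 1 → k = 0

/-- independent groups -/
def IndependentGroups {r : ℕ} (G : Fin r → Subgroup ℚˣ) : Prop :=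
  ∀ g : Fin r → ℚˣ, (∀ i, g i ∈ G i) → ∏ i, g i = 1 → ∀ i, g i = 1

/-- for some `k < r` and multiplicatively independent `c_1, …, c_k ≥ 2`, `P b` is true for all `b ≥ 2`
such that `c_1, …, c_k, b` are multiplicatively independent -/
def AllBut (r : ℕ) (P : ℕ → Prop) : Prop :=
  ∃ (k : ℕ) (c : Fin k → ℕ), k < r ∧ (∀ i, 2 ≤ c i) ∧ Independent c ∧
    ∀ b : ℕ, 2 ≤ b → Independent (Fin.snoc c b : Fin (k + 1) → ℕ) → P b

/-- the multiple zeta values of weight `j` -/
def mzv (j : ℕ) : Set ℝ :=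
  {x : ℝ | ∃ t : ℕ, ∃ k : Fin t → ℕ,
    (∀ i, 1 ≤ k i) ∧ (∀ h : 0 < t, 2 ≤ k ⟨0, h⟩) ∧ (∑ i, k i) = j ∧
    x = ∑' n : {n : Fin t → ℕ // StrictAnti n ∧ ∀ i, 1 ≤ n i},
          ∏ i, (((n.1 i : ℕ) : ℝ) ^ (k i))⁻¹}

/-- the space spanned over the field `F` by the multiple zeta values of weight `j` -/
noncomputable def Z (F : Subfield ℝ) (j : ℕ) : Submodule F ℝ := Submodule.span F (mzv j)

/-- the sum of the spaces `Z F j`, `j ≤ 4`, `j ≠ 2`, is direct -/
def Direct (F : Subfield ℝ) : Prop :=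
  ∀ z : ℕ → ℝ, (∀ j ≤ 4, z j ∈ Z F j) → z 2 = 0 → ∑ j ∈ Finset.range 5, z j = 0 →
    ∀ j ≤ 4, z j = 0

/-- `1, ζ(3), π ^ 4` -/
noncomputable def triple : Fin 3 → ℝ := ![1, ∑' n : ℕ, 1 / ((n : ℝ) + 1) ^ 3, Real.pi ^ 4]

/-- the dimension of the `F`-vector space spanned by `1, ζ(3), π ^ 4` -/
noncomputable def dim (F : Subfield ℝ) : ℕ := Module.finrank F (Submodule.span F (Set.range triple))

section algebra

open Pool.Agent.H447R2.MZ

variable {F : Subfield ℝ}

lemma mem_line {j : ℕ} {v : ℝ} (h : ∀ x ∈ mzv j, ∃ q : ℚ, x = q * v) {z : ℝ} (hz : z ∈ Z F j) :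
    ∃ a : F, z = a * v := by
  have h1 : Z F j ≤ Submodule.span F {v} := by
    unfold Z
    rw [Submodule.span_le]
    intro x hx
    obtain ⟨q, rfl⟩ := h x hx
    have : (q : ℝ) * v = (⟨(q : ℝ), SubfieldClass.ratCast_mem F q⟩ : F) • v := rfl
    rw [this]
    exact Submodule.smul_mem _ _ (Submodule.mem_span_singleton_self v)
  obtain ⟨a, ha⟩ := Submodule.mem_span_singleton.1 (h1 hz)
  exact ⟨a, ha.symm⟩

lemma line_zero {z : ℝ} (hz : z ∈ Z F 0) : ∃ a : F, z = a := by
  obtain ⟨a, ha⟩ := mem_line (v := 1) (fun x hx => by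
    obtain ⟨q, hq⟩ := Zs_zero (Submodule.subset_span hx)
    exact ⟨q, by rw [hq, mul_one]⟩) hz
  exact ⟨a, by rw [ha, mul_one]⟩

lemma line_one {z : ℝ} (hz : z ∈ Z F 1) : z = 0 := by
  obtain ⟨a, ha⟩ := mem_line (v := 0) (fun x hx => by
    have := Zs_one (Submodule.subset_span hx)
    exact ⟨0, by rw [this, mul_zero]⟩) hz
  rw [ha, mul_zero]

lemma line_three {z : ℝ} (hz : z ∈ Z F 3) : ∃ a : F, z = a * ∑' n : ℕ, 1 / ((n : ℝ) + 1) ^ 3 :=
  mem_line (fun x hx => by
    obtain ⟨q, hq⟩ := Pool.Agent.ZF.W4a.Zs_three (Submodule.subset_span hx)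
    have e3 : val [3] = ∑' n : ℕ, 1 / ((n : ℝ) + 1) ^ 3 :=
      (val_single 3 (by norm_num)).tsum_eq.symm
    exact ⟨q, by rw [hq, e3]⟩) hz

lemma line_four {z : ℝ} (hz : z ∈ Z F 4) : ∃ a : F, z = a * Real.pi ^ 4 :=
  mem_line (fun x hx => by
    obtain ⟨q, hq⟩ := Pool.Agent.ZF.W4a.Zs_four (Submodule.subset_span hx)
    have e4 : val [4] = ∑' n : ℕ, 1 / ((n : ℝ) + 1) ^ 4 :=
      (val_single 4 (by norm_num)).tsum_eq.symm
    have h4 : ∑' n : ℕ, 1 / ((n : ℝ) + 1) ^ 4 = Real.pi ^ 4 / 90 := by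
      have h1 := (hasSum_nat_add_iff' 1).2 hasSum_zeta_four
      rw [Finset.sum_range_one] at h1
      simp only [Nat.cast_zero, ne_eq, OfNat.ofNat_ne_zero, not_false_eq_true, zero_pow, div_zero,
        sub_zero] at h1
      refine HasSum.tsum_eq (h1.congr_fun fun n => ?_)
      push_cast
      rfl
    exact ⟨q / 90, by rw [hq, e4, h4]; push_cast; ring⟩) hz

theorem direct (h : LinearIndependent F triple) : Direct F := by
  intro z hz h2 hs
  obtain ⟨a0, h0⟩ := line_zero (hz 0 (by norm_num))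
  have h1 := line_one (hz 1 (by norm_num))
  obtain ⟨a3, h3⟩ := line_three (hz 3 (by norm_num))
  obtain ⟨a4, h4⟩ := line_four (hz 4 (by norm_num))
  rw [Fintype.linearIndependent_iff] at h
  have h5 := h ![a0, a3, a4] (by
    rw [Fin.sum_univ_three]
    simp only [triple, Matrix.cons_val_zero, Matrix.cons_val_one, Matrix.cons_val]
    have e1 : ∀ (a : F) (x : ℝ), a • x = (a : ℝ) * x := fun a x => rfl
    rw [e1, e1, e1]
    simp only [Finset.sum_range_succ, Finset.sum_range_zero, h0, h1, h2, h3, h4] at hs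
    linarith)
  have g0 : a0 = 0 := h5 0
  have g3 : a3 = 0 := h5 1
  have g4 : a4 = 0 := h5 2
  intro j hj
  interval_cases j
  · rw [h0, g0]
    rfl
  · exact h1
  · exact h2
  · rw [h3, g3]
    exact zero_mul _
  · rw [h4, g4]
    exact zero_mul _

end algebra

open Pool.Agent.Run7.h123.LC in
theorem allBut {P : ℕ → Prop} {r : ℕ} (hr : 1 ≤ r)
    (h : ∀ c : Fin r → ℕ, (∀ i, 2 ≤ c i) → Independent c → ∃ i, P (c i)) : AllBut r P := by
  obtain ⟨n, rfl⟩ : ∃ n, r = n + 1 := ⟨r - 1, by omega⟩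
  obtain ⟨k, c, hk, hc, hi, hb⟩ := outside_rank (fun b => ¬ P b) n (fun c hc hi hall => by
    obtain ⟨i, hi⟩ := h c hc hi
    exact hall i hi)
  exact ⟨k, c, by omega, hc, hi, fun b hb2 hbi => not_not.1 (hb b hb2 hbi)⟩

/-- Let `S` be an infinite set of integers.

(1) There are at most two multiplicatively independent `c_i ≥ 2` such that for all `b ≥ 2`
multiplicatively independent of them the sum of the spaces spanned over `K S b` by the multiple zeta
values of the weights `0, 1, 3, 4` is direct, and `1, ζ(3), π ^ 4` are linearly independent over `K S b`.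

(2) The same is true over one of the fields `K S G_1, K S G_2, K S G_3` if the groups are independent.
If `G ∩ H = 1`, then the dimensions over `K S G` and `K S H` of the spaces spanned by
`1, ζ(3), π ^ 4` have product at least `3`.

(3) The field `K S b` contains the rational numbers and all real numbers which have, in some base
`d ≥ 2` with `d ^ m = b ^ k`, `m ≥ 1`, at most `C m` different blocks of `m` digits, `m ∈ S`, for some
`C`. -/
theorem result :
    (∀ S : Set ℕ, S.Infinite →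
      AllBut 3 (fun b => Direct (K S (group b)) ∧ LinearIndependent (K S (group b)) triple) ∧
      (∀ G : Fin 3 → Subgroup ℚˣ, IndependentGroups G → ∃ i,
        Direct (K S (G i)) ∧ LinearIndependent (K S (G i)) triple) ∧
      ∀ G H : Subgroup ℚˣ, G ⊓ H = ⊥ → 3 ≤ dim (K S G) * dim (K S H)) ∧
    (∀ (S : Set ℕ) (b d m k : ℕ), 2 ≤ d → 1 ≤ m → d ^ m = b ^ k → ∀ x C : ℝ,
      (∀ m ∈ S, (blocks (digit d x) m : ℝ) ≤ C * m) → x ∈ K S (group b)) ∧
    (∀ (S : Set ℕ) (G : Subgroup ℚˣ) (x : ℚ), (x : ℝ) ∈ K S G) := by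
  refine ⟨fun S hS => ?_, fun S b d m k hd hm h x C hC => ?_,
    fun S G x => SubfieldClass.ratCast_mem _ x⟩
  · have key : ∀ G : Fin 3 → Subgroup ℚˣ, IndependentGroups G → ∃ i,
        Direct (K S (G i)) ∧ LinearIndependent (K S (G i)) triple := by
      intro G hG
      obtain ⟨i, hi⟩ := Pool.Agent.Run7.h123.LC.lm_indep (x := triple)
        Pool.Agent.Run7.h123.LC.lm_zeta_pi4 (by norm_num) hS hG (F := fun i => K S (G i))
        (fun i => le_rfl)
      exact ⟨i, direct hi, hi⟩
    refine ⟨?_, key, fun G H hGH => ?_⟩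
    · exact allBut (by norm_num) fun c hc hi => key (fun i => group (c i))
        (Pool.Agent.Run7.h123.LC.gindep_rad hc hi)
    · exact Pool.Agent.Run7.h123.LC.lm_two (x := triple)
        Pool.Agent.Run7.h123.LC.lm_zeta_pi4 hS hGH (F₁ := K S G) (F₂ := K S H) le_rfl le_rfl
        (FiniteDimensional.span_of_finite _ (Set.finite_range triple))
        (FiniteDimensional.span_of_finite _ (Set.finite_range triple))
        (fun i => Submodule.subset_span ⟨i, rfl⟩) (fun i => Submodule.subset_span ⟨i, rfl⟩)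
  · have hb0 : (d : ℚ) ≠ 0 := by
      have : d ≠ 0 := by omega
      exact_mod_cast this
    have hu : ∃ u ∈ group b, (u : ℚ) = d := by
      refine ⟨Units.mk0 (d : ℚ) hb0, mem_group.2 ⟨?_, m, (k : ℤ), hm, ?_⟩, rfl⟩
      · rw [Units.val_mk0]
        positivity
      · rw [Units.val_mk0, zpow_natCast]
        exact_mod_cast h
    exact Pool.Agent.Run7.h123.LC.digits_mem hd hu hC

end Pool.Agent.Results.MP_4d52ff_nt.DirectnessOverSimpleFields
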