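import Pool.Agent.Run7.h697.TP.Direct
import Pool.Agent.Run7.h851.T.Final

/-!
# MP_4d52ff_nt: four weights at most `63` with independent lines

There are `b ∈ {5, 7}` and an odd `c` with `b < c ≤ 63` such that the sum `Z_0 + Z_3 + ℚ ζ(b) + ℚ ζ(c)` is direct
(`ζ(b) ∈ Z_b`, `ζ(c) ∈ Z_c`). The relations `z_0 + z_3 + z_5 + ⋯ + z_63 = 0` with `z_0 ∈ ℚ = Z_0` and
`z_j ∈ ℚ ζ(j) ⊆ Z_j` for the odd `j` form a space of dimension at most `28` (out of `32`).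
-/

set_option autoImplicit false

namespace Pool.Agent.Results.MP_4d52ff_nt.FourOddWeights

/-- `Z_j`: the `ℚ`-span of the multiple zeta values of weight `j`, as in the frozen statement -/
noncomputable def Z (j : ℕ) : Submodule ℚ ℝ :=
  Submodule.span ℚ
    {x : ℝ | ∃ t : ℕ, ∃ k : Fin t → ℕ,
      (∀ i, 1 ≤ k i) ∧ (∀ h : 0 < t, 2 ≤ k ⟨0, h⟩) ∧ (∑ i, k i) = j ∧
      x = ∑' n : {n : Fin t → ℕ // StrictAnti n ∧ ∀ i, 1 ≤ n i},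
            ∏ i, (((n.1 i : ℕ) : ℝ) ^ (k i))⁻¹}

/-- `ζ(j)` for `j ≥ 2` -/
noncomputable def zeta (j : ℕ) : ℝ := ∑' n : ℕ, 1 / ((n : ℝ) + 1) ^ j

/-- (1) For some `b ∈ {5, 7}` and some odd `c`, `b < c ≤ 63`: if `z_0 ∈ Z_0`, `z_3 ∈ Z_3`, `z_b ∈ ℚ ζ(b) ⊆ Z_b`,
`z_c ∈ ℚ ζ(c) ⊆ Z_c`, `z_j = 0` for the other `j ≤ c`, and `z_0 + z_1 + ⋯ + z_c = 0`, then every `z_j` is `0`.
(2) The relations between `1, ζ(3), ζ(5), ..., ζ(63)`, that is, the families `z_0 ∈ ℚ`, `z_j ∈ ℚ ζ(j)` (`j` odd,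
`3 ≤ j ≤ 63`) with sum `0`, form a space of dimension at most `28`. -/
theorem result :
    (∃ b c : ℕ, (b = 5 ∨ b = 7) ∧ Odd c ∧ b < c ∧ c ≤ 63 ∧ zeta b ∈ Z b ∧ zeta c ∈ Z c ∧
      ∀ z : ℕ → ℝ, z 0 ∈ Z 0 → z 3 ∈ Z 3 → z b ∈ Submodule.span ℚ {zeta b} → z c ∈ Submodule.span ℚ {zeta c} →
        (∀ j ≤ c, j ≠ 0 → j ≠ 3 → j ≠ b → j ≠ c → z j = 0) →
        (∑ j ∈ Finset.range (c + 1), z j) = 0 → ∀ j ≤ c, z j = 0) ∧
    Module.finrank ℚ (LinearMap.ker (Fintype.linearCombination ℚ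
      (fun i : Fin 32 => if i.1 = 0 then (1 : ℝ) else zeta (2 * i.1 + 1)))) ≤ 28 := by
  constructor
  · obtain ⟨b, c, hb, hc, hbc, hc63, h⟩ := Pool.Agent.Run7.h851.T.Z_explicit
    refine ⟨b, c, hb, hc, hbc, hc63, Pool.Agent.H447R2.MZ.zeta_mem b (by omega),
      Pool.Agent.H447R2.MZ.zeta_mem c (by omega), ?_⟩
    intro z h0 h3 hzb hzc ho e
    exact Pool.Agent.Run7.h697.TP.direct_seq hb hbc h z h0 h3 hzb hzc ho e
  · exact Pool.Agent.Run7.h697.TP.relations_le Pool.Agent.Run7.h851.T.Z_main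

end Pool.Agent.Results.MP_4d52ff_nt.FourOddWeights
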