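import Pool.Agent.Run7.h467.GA.One
import Pool.Agent.Results.MP_4d52ff_nt.AlmostAllTuples

/-!
# MP_4d52ff_nt: relations between multiple zeta values at the entries of all good rational approximations

A pattern in `k` variables is a nonempty list of letters `b + u_1 s_1 + ... + u_k s_k`; at a tuple `s` of natural numbers
it gives an index. The first letters may be constant, such as in `ζ(2, 2, s_1, 3, s_1 + s_2)`. The tuple `s` is bad (for `D`
and `H`) if there is a polynomial relation of degree at most `D` with integer coefficients at most `H` between the multiple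
zeta values of the patterns at `s` such that its part of some weight is not a relation; this is a nontrivial relation
`z_0 + ... + z_p = 0` with `z_j` in the space `Z_j`.

Let `α` be a point of `ℝ ^ d`, and let `(p, q)`, `p ∈ ℤ ^ d`, run through its approximations with
`|α_i - p_i / q| ≤ c q ^ (-1-σ)`; by Dirichlet's theorem there are infinitely many for `σ = 1 / d`, `c = 1`, for every `α`.
We consider ALL tuples `s` of `k ≤ d + 1` natural numbers of the same order of magnitude which are small linearly independent
combinations `u_j · p + v_j q` of the entries of such an approximation, up to small errors: with coefficients at most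
`c q ^ η` and errors at most `c q ^ θ`. For example `s = (q, p_1, ..., p_d)` or `s = (p_1, ..., p_d)`, with errors at most `c`.

Theorem. (1) For all `α` but a set of Hausdorff dimension at most `(d + (k (d + 2) - 1) η + k θ) / (1 + σ)`, for all patterns
in `k` variables for which the relations between the multiple zeta values of the (finitely many) constant fronts split, and
all `D`, `C`, `c` none of these tuples `s` is bad for `D` and `H = C ^ q`, for all but finitely many `(p, q)`. For
`σ = 1 / d` the bound is smaller than `d` if `(k (d + 2) - 1) η + k θ < 1`; it is `d ^ 2 / (d + 1)` for `η = θ = 0`.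
(2) The condition on the fronts holds if all constant first letters are equal and even, in each pattern, for example if there
are none; so (1) is unconditional for these patterns.
(3) Conversely the condition on the fronts is necessary; the following are equivalent: (a) the sum `Z_0 + ... + Z_p` is direct
for all `p` (Q1); (b) the conclusion of (1) holds for all patterns; (c) for all patterns in one variable with exactly one
letter which is not constant, `s + b`, there is ONE real number `α` such that the conclusion of (1) holds at `α` for `D = 1`,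
`σ = 1`, `η = θ = 0`.

`AlmostAllTuples` bounds the number of bad tuples in `[N, κ N] ^ k` by `K N ^ (k - 1)`. This does not exclude bad tuples near
all directions. The good approximations are a very thin set of vectors; the size of the set of the exceptional `α` is
estimated by the Hausdorff-Cantelli lemma, after a count of the vectors `(q, p)` for which some independent small forms are
near a bad tuple (`Pool.Agent.Run7.h467.GA`).
-/

set_option autoImplicit false

open Filter MeasureTheory

namespace Pool.Agent.Results.MP_4d52ff_nt.GoodApproximations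

open AlmostAllTuples (mzv Letter index AdmissiblePattern fronts EvenFront OneLarge IsDirect Splits Bad part part2
  even_splits splits_of_direct direct_of_splits c_to_a OneLargeArgument gval coeff_gval coeff_linear)

/-- The members of the tuple `s` are at distance at most `c q ^ θ` from the values `u_j · p + v_j q` of linearly independent
integral linear forms with coefficients at most `c q ^ η`. -/
def NearForms {d k : ℕ} (η θ c : ℝ) (p : Fin d → ℤ) (q : ℕ) (s : Fin k → ℕ) : Prop :=
  ∃ (u : Fin k → Fin d → ℤ) (v : Fin k → ℤ),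
    (∀ a : Fin k → ℤ, (∀ i, ∑ j, a j * u j i = 0) → ∑ j, a j * v j = 0 → a = 0) ∧
    (∀ j i, |(u j i : ℝ)| ≤ c * (q : ℝ) ^ η) ∧ (∀ j, |(v j : ℝ)| ≤ c * (q : ℝ) ^ η) ∧
    ∀ j, |(s j : ℝ) - (∑ i, (u j i : ℝ) * p i + v j * q)| ≤ c * (q : ℝ) ^ θ

/-- For all `C`, `c` and all but finitely many approximations `(p, q)` of `α` with `|α_i - p_i / q| ≤ c q ^ (-1-σ)` the property
`E (C ^ q)` fails for all tuples `s` of natural numbers near independent small forms in `(p, q)`, with `s_i ≤ c s_j` and
`q ≤ c s_j` for all `i`, `j`. -/
def Holds {d k : ℕ} (σ η θ : ℝ) (E : ℝ → (Fin k → ℕ) → Prop) (α : Fin d → ℝ) : Prop :=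
  ∀ C c : ℝ, ∃ Q : ℕ, ∀ (p : Fin d → ℤ) (q : ℕ), Q ≤ q → (∀ i, |α i - p i / q| ≤ c / (q : ℝ) ^ (1 + σ)) →
    ∀ s : Fin k → ℕ, (∀ i j, (s i : ℝ) ≤ c * s j) → (∀ j, (q : ℝ) ≤ c * s j) → NearForms η θ c p q s → ¬ E (C ^ q) s

/-- The set of the points `α` of `ℝ ^ d` for which, for some admissible patterns `w` in `k` variables with the property `A` and
some degree `D`, a bad tuple is near independent small forms at infinitely many good approximations. -/
def exceptional (k d : ℕ) (σ η θ : ℝ) (A : ∀ r : ℕ, (Fin r → List (Letter k)) → Prop) : Set (Fin d → ℝ) :=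
  {α | ∃ (r : ℕ) (w : Fin r → List (Letter k)) (D : ℕ), (∀ i, AdmissiblePattern (w i)) ∧ A r w ∧
    ¬ Holds σ η θ (Bad w D) α}

/-- the bound for the dimension of the exceptional sets -/
def Small (A : ∀ k r : ℕ, (Fin r → List (Letter k)) → Prop) : Prop :=
  ∀ (k : ℕ), 1 ≤ k → ∀ (d : ℕ) (σ η θ : ℝ), 0 ≤ σ → 0 ≤ η → 0 ≤ θ → θ ≤ 1 →
    dimH (exceptional k d σ η θ (A k)) ≤ ENNReal.ofReal ((d + (k * (d + 2) - 1) * η + k * θ) / (1 + σ))

/-- statement (c) -/
def OnePoint : Prop :=
  ∀ (r : ℕ) (w : Fin r → List (Letter 1)), (∀ i, AdmissiblePattern (w i) ∧ OneLarge (w i)) →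
    ∃ α : Fin 1 → ℝ, Holds 1 0 0 (Bad w 1) α

lemma bad_mono {k r : ℕ} (w : Fin r → List (Letter k)) (D : ℕ) (H H' : ℝ) (s : Fin k → ℕ) (h : H ≤ H')
    (hB : Bad w D H s) : Bad w D H' s := by
  obtain ⟨P, h1, h2, h3, h4⟩ := hB
  exact ⟨P, h1, fun m => (h2 m).trans h, h3, h4⟩

lemma small_of (A : ∀ k r : ℕ, (Fin r → List (Letter k)) → Prop)
    (h : ∀ k r (w : Fin r → List (Letter k)), (∀ i, AdmissiblePattern (w i)) → A k r w → Splits (fronts w)) :
    Small A := by
  intro k hk d σ η θ hσ hη hθ hθ1
  have h1 := Run7.h467.GA.metric hk (I := Σ r : ℕ, (Fin r → List (Letter k)) × ℕ)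
    (fun i => (∀ j, AdmissiblePattern (i.2.1 j)) ∧ A k i.1 i.2.1) (fun i => Bad i.2.1 i.2.2)
    (fun i H H' s => bad_mono i.2.1 i.2.2 H H' s) (fun i hi κ => part2 i.2.1 hi.1 (h k i.1 i.2.1 hi.1 hi.2) i.2.2 κ)
    d hσ hη hθ hθ1
  refine (dimH_mono ?_).trans h1
  rintro α ⟨r, w, D, hw, hA, hH⟩
  exact ⟨⟨r, w, D⟩, ⟨hw, hA⟩, hH⟩

/-- a linear relation which does not split -/
lemma bad_of_linear {k r : ℕ} (w : Fin r → List (Letter k)) (s : Fin k → ℕ)
    (B : ℕ) (H : ℝ) (hB1 : (B : ℝ) ≤ H) (a : Fin r → ℤ) (ha : ∀ i, |a i| ≤ B)
    (hR : ∑ i, (a i : ℝ) * mzv (index s (w i)) = 0) (p : ℕ)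
    (hA : ∑ i with (index s (w i)).sum = p, (a i : ℝ) * mzv (index s (w i)) ≠ 0) : Bad w 1 H s := by
  classical
  refine ⟨∑ i, MvPolynomial.C (a i) * MvPolynomial.X i, ?_, fun m => ?_, ?_, p, ?_⟩
  · refine MvPolynomial.totalDegree_finsetSum_le fun i _ => ?_
    refine (MvPolynomial.totalDegree_mul _ _).trans ?_
    rw [MvPolynomial.totalDegree_C, zero_add]
    exact (MvPolynomial.totalDegree_X _).le
  · rw [MvPolynomial.coeff_sum]
    simp only [MvPolynomial.coeff_C_mul, MvPolynomial.coeff_X]
    refine le_trans ?_ hB1
    by_cases hm : ∃ i, Finsupp.single i 1 = m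
    · obtain ⟨i₀, rfl⟩ := hm
      have h4 : ∑ x, a x * (if Finsupp.single x 1 = Finsupp.single i₀ 1 then (1 : ℤ) else 0) = a i₀ := by
        rw [Finset.sum_eq_single i₀]
        · rw [if_pos rfl, mul_one]
        · intro x _ hx
          rw [if_neg, mul_zero]
          intro h5
          exact hx ((Finsupp.single_left_inj one_ne_zero).1 h5)
        · intro h5
          exact absurd (Finset.mem_univ _) h5
      rw [h4]
      exact_mod_cast ha i₀
    · have h4 : ∑ x, a x * (if Finsupp.single x 1 = m then (1 : ℤ) else 0) = 0 := by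
        refine Finset.sum_eq_zero fun x _ => ?_
        rw [if_neg fun h5 => hm ⟨x, h5⟩, mul_zero]
      rw [h4, Int.cast_zero, abs_zero]
      exact Nat.cast_nonneg _
  · rw [map_sum]
    refine Eq.trans (Finset.sum_congr rfl fun i _ => ?_) hR
    rw [map_mul, MvPolynomial.aeval_C, MvPolynomial.aeval_X]
    rfl
  · rw [← coeff_gval, gval, map_sum]
    intro h5
    refine hA ?_
    rw [← coeff_linear (fun i => index s (w i)) a p, ← h5]
    congr 1
    refine Finset.sum_congr rfl fun i _ => ?_
    rw [map_mul, MvPolynomial.aeval_C, MvPolynomial.aeval_X]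
    rfl

lemma large_of_one (h : OnePoint) : OneLargeArgument := by
  intro r w hw B s₁
  obtain ⟨α, hα⟩ := h r w hw
  obtain ⟨s, h1, h2, h3⟩ := Run7.h467.GA.one_point (fun H H' s => bad_mono w 1 H H' s) (C := (B : ℝ) + 1)
    (by have := Nat.cast_nonneg (α := ℝ) B; linarith) hα s₁
  refine ⟨s, h1, h2, fun a ha hR p => ?_⟩
  by_contra hA
  exact h3 (bad_of_linear w (fun _ => s) B _ (by linarith) a ha hR p hA)

lemma one_of_all (h : Small fun _ _ _ => True) : OnePoint := by
  have h1 := h 1 le_rfl 1 1 0 0 (by norm_num) le_rfl le_rfl zero_le_one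
  obtain ⟨α, hα⟩ := Run7.h467.GA.exists_point le_rfl h1 (by norm_num)
  intro r w hw
  refine ⟨α, ?_⟩
  by_contra hcon
  exact hα ⟨r, w, 1, fun i => (hw i).1, trivial, hcon⟩

/-- **Theorem.** (1) For all `k ≥ 1`, `d`, `σ`, `η`, `θ` the points `α` of `ℝ ^ d` with the following property form a set of
Hausdorff dimension at most `(d + (k (d + 2) - 1) η + k θ) / (1 + σ)`: for some admissible patterns in `k` variables such that
all polynomial relations between the multiple zeta values of the fronts split into relations of one weight, some `D` and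
some `C`, `c` there are infinitely many `(p, q)` with `|α_i - p_i / q| ≤ c q ^ (-1-σ)` for which a tuple `s` of comparable
numbers near independent small forms in `(p, q)` is bad for the degree `D` and the height `C ^ q`. (2) If the fronts are even
the relations between the fronts split. (3) Equivalent are: all sums `Z_0 + ... + Z_p` are direct; the conclusion of (1) holds
for all admissible patterns; `OnePoint`. -/
theorem result :
    (Small fun _ _ w => Splits (fronts w)) ∧
    (∀ (k r : ℕ) (w : Fin r → List (Letter k)), (∀ i, EvenFront (w i)) → Splits (fronts w)) ∧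
    ((∀ p, IsDirect p) ↔ Small fun _ _ _ => True) ∧ ((Small fun _ _ _ => True) ↔ OnePoint) := by
  have hall : Splits Set.univ → Small fun _ _ _ => True := by
    intro h
    refine small_of _ fun k r w hw _ => ?_
    intro f hf p
    let ρ : {u : List ℕ // AlmostAllTuples.Admissible u ∧ u ∈ fronts w} →
      {u : List ℕ // AlmostAllTuples.Admissible u ∧ u ∈ (Set.univ : Set (List ℕ))} := fun u => ⟨u.1, u.2.1, trivial⟩
    have h1 := h (MvPolynomial.rename ρ f) (by
      rw [MvPolynomial.aeval_rename]
      exact hf)
    rw [← AlmostAllTuples.gval_eq_zero, gval, MvPolynomial.aeval_rename] at h1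
    exact (AlmostAllTuples.gval_eq_zero
      (fun u : {u : List ℕ // AlmostAllTuples.Admissible u ∧ u ∈ fronts w} => u.1) f).1 h1 p
  exact ⟨small_of _ fun _ _ _ _ h => h, fun _ _ w he => even_splits w he,
    ⟨fun h => hall (splits_of_direct h), fun h => direct_of_splits (c_to_a (large_of_one (one_of_all h)))⟩,
    ⟨one_of_all, fun h => hall (c_to_a (large_of_one h))⟩⟩

end Pool.Agent.Results.MP_4d52ff_nt.GoodApproximations
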