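import Mathlib
import Pool.Agent.Run7.h867.TW.Window
import Pool.Agent.Run7.h867.TW.Weighted

/-!
# Multiple zeta values of typical different weights have no relation of exponential height

Let `W_1, ..., W_N` be weights in the window `[w, w + M)`, `w ≥ 20 m + 2`, and let `S` be a finite set of monomials in `N`
variables.  For each tuple of weights let `p(W)` be the proportion of the `N`-tuples of indices of weights
`W_1, ..., W_N` for which some nonzero integer polynomial `P` with monomials in `S` and coefficients at most `H` in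
absolute value vanishes at the multiple zeta values `v` of the tuple, or `|S|·|P(v)|` is smaller than the absolute value
of one of its monomials.  Then the average of `p(W)` over the `M^N` tuples of weights is at most
`C(|S|,2)·((2 log_2(|S| H) / log_2(3 m) + 1) / M + 2^{-m})`.  The height `H` may be as large as `exp(δ M log w)`.

The proof rests on the inequalities `d ζ(u z v) ≤ ζ(u v)` and `Z ζ(u p v) ≤ ζ(u v)` for words in the letters
`z = dt/t`, `p = dt/(1-t)`, where `Z` is the number of the letters `z` of `u` and `d` the number of the letters `p` of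
`v`, and on a Kraft inequality for binary trees of words along which the value is divided by at least `3m` at each step.
-/

set_option autoImplicit false

namespace Pool.Agent.Results.MP_4d52ff_nt.TypicalWeights

open Finset Filter Topology

/-- the sum of `∏_j 1 / n_j ^ k_j` over `m > n_1 > ... > n_r ≥ 1` (it is `1` for the empty index) -/
noncomputable def trunc : List ℕ → ℕ → ℝ
  | [], _ => 1
  | a :: s, m => ∑ j ∈ Finset.Ico 1 m, 1 / (j : ℝ) ^ a * trunc s j

/-- the multiple zeta value `ζ(k_1, ..., k_r)`, the limit of the truncated sums -/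
noncomputable def zeta (s : List ℕ) : ℝ := limUnder atTop (trunc s)

/-- the indices of the multiple zeta values of weight `w`: `r ≥ 1`, `k_j ≥ 1`, `k_1 ≠ 1` and `k_1 + ... + k_r = w` -/
def indices (w : ℕ) : Set (List ℕ) := {s | s ≠ [] ∧ (∀ a ∈ s, 1 ≤ a) ∧ s.head? ≠ some 1 ∧ s.sum = w}

/-- the tuples of indices of weights `W_1, ..., W_N` with multiple zeta values `v_1, ..., v_N` for which there is a
nonzero integer polynomial `P` with monomials in `S` and coefficients at most `H` in absolute value such that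
`P(v) = 0`, or `|S|·|P(v)|` is smaller than the absolute value of a monomial of `P` at `v` -/
def exceptional {N : ℕ} (S : Finset (Fin N →₀ ℕ)) (H : ℕ) (W : Fin N → ℕ) : Set (Fin N → List ℕ) :=
  {u | (∀ i, u i ∈ indices (W i)) ∧ ∃ P : MvPolynomial (Fin N) ℤ, P ≠ 0 ∧ P.support ⊆ S ∧
    (∀ α, |P.coeff α| ≤ H) ∧ (MvPolynomial.aeval (fun i => zeta (u i)) P = 0 ∨
      ∃ α ∈ P.support, (#S : ℝ) * |MvPolynomial.aeval (fun i => zeta (u i)) P| < |∏ i, zeta (u i) ^ α i|)}

theorem trunc_same (s : List ℕ) : ∀ m, trunc s m = Run7.h867.MZ.tr s m := by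
  induction s with
  | nil => intro m; rfl
  | cons a s ih =>
    intro m
    rw [trunc, Run7.h867.MZ.tr]
    exact sum_congr rfl fun j _ => by rw [ih]

theorem zeta_same (s : List ℕ) : zeta s = Run7.h867.MZ.mz s := by
  have : trunc s = Run7.h867.MZ.tr s := funext (trunc_same s)
  rw [zeta, Run7.h867.MZ.mz, this]

/-- there are `2^{w-2}` indices of weight `w`, their values are well-defined and positive, and the average over the
tuples of weights in the window `[w, w + M)` of the proportion of the exceptional tuples of indices is small -/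
theorem result :
    (∀ w : ℕ, 2 ≤ w → (indices w).ncard = 2 ^ (w - 2)) ∧
    (∀ w : ℕ, 2 ≤ w → ∀ s ∈ indices w, Tendsto (trunc s) atTop (𝓝 (zeta s)) ∧ 0 < zeta s) ∧
    ∀ (N : ℕ) (S : Finset (Fin N →₀ ℕ)) (H m w M : ℕ), S.Nonempty → 1 ≤ H → 1 ≤ m → 20 * m + 2 ≤ w → 1 ≤ M →
      (∀ W ∈ Fintype.piFinset fun _ : Fin N => Finset.Ico w (w + M), (exceptional S H W).Finite) ∧
      ∑ W ∈ Fintype.piFinset fun _ : Fin N => Finset.Ico w (w + M),
          ((exceptional S H W).ncard : ℝ) / ∏ i, (2 ^ (W i - 2) : ℝ) ≤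
        ((#S).choose 2 : ℝ) * ((2 * Real.logb 2 (#S * H) / Real.logb 2 (3 * m) + 1) / M + (1 / 2) ^ m) *
          (M : ℝ) ^ N := by
  classical
  have hind : ∀ w, 2 ≤ w → indices w = (Run7.h867.MZ.A (w - 2) : Set (List ℕ)) := by
    intro w hw
    ext s
    rw [mem_coe, Run7.h867.MZ.mem_A, show w - 2 + 2 = w by omega]
    rfl
  refine ⟨?_, ?_, ?_⟩
  · intro w hw
    rw [hind w hw, Set.ncard_coe_finset, Run7.h867.MZ.card_A]
  · intro w hw s hs
    have h1 : trunc s = Run7.h867.MZ.tr s := funext (trunc_same s)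
    have h2 : s ∈ Run7.h867.MZ.adm (w - 2 + 2) := by
      rw [show w - 2 + 2 = w by omega]
      exact hs
    rw [h1, zeta_same]
    exact ⟨Run7.h867.MZ.tendsto_tr h2, Run7.h867.MZ.mz_pos h2⟩
  · intro N S H m w M hS hH hm hw hM
    obtain ⟨K, hK⟩ : ∃ K : ℝ, K = Real.logb 2 (#S * H) := ⟨_, rfl⟩
    have hK0 : 0 ≤ K := by
      rw [hK]
      refine Real.logb_nonneg (by norm_num) ?_
      have h1 : 1 ≤ #S * H := Nat.one_le_iff_ne_zero.2 (Nat.mul_ne_zero (card_pos.2 hS).ne' (by omega))
      exact_mod_cast h1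
    have hM0 : (0 : ℝ) < M := by exact_mod_cast hM
    have hlog : 0 < Real.logb 2 (3 * (m : ℝ)) := by
      refine Real.logb_pos (by norm_num) ?_
      have : (1 : ℝ) ≤ m := by exact_mod_cast hm
      linarith
    obtain ⟨κ, hκ⟩ : ∃ κ : ℝ, κ = (2 * K / Real.logb 2 (3 * m) + 1) / M + (1 / 2) ^ m := ⟨_, rfl⟩
    have hκ0 : 0 ≤ κ := by rw [hκ]; positivity
    obtain ⟨G, hG⟩ : ∃ G : Finset (List ℕ), G = (range M).biUnion fun j => Run7.h867.MZ.A (w - 2 + j) := ⟨_, rfl⟩
    obtain ⟨μ, hμ⟩ : ∃ μ : List ℕ → ℝ, μ = fun s => 1 / 2 ^ (s.sum - 2) := ⟨_, rfl⟩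
    have hμ0 : ∀ l, 0 ≤ μ l := fun l => by rw [hμ]; positivity
    have hsum : ∀ k, ∀ s ∈ Run7.h867.MZ.A k, s.sum = k + 2 := by
      intro k s hs
      exact (Run7.h867.MZ.mem_A.1 hs).2.2.2
    have hdisj : ∀ p : List ℕ → Prop, [DecidablePred p] → ∑ s ∈ G.filter p, μ s =
        ∑ j ∈ range M, (#((Run7.h867.MZ.A (w - 2 + j)).filter p) : ℝ) / 2 ^ (w - 2 + j) := by
      intro p _
      rw [hG, filter_biUnion, sum_biUnion]
      · refine sum_congr rfl fun j _ => ?_
        have h2 : ∀ s ∈ (Run7.h867.MZ.A (w - 2 + j)).filter p, μ s = 1 / 2 ^ (w - 2 + j) := by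
          intro s hs
          rw [mem_filter] at hs
          rw [hμ]
          simp only
          rw [hsum _ s hs.1, show w - 2 + j + 2 - 2 = w - 2 + j by omega]
        rw [sum_congr rfl h2, sum_const, nsmul_eq_mul]
        ring
      · intro j _ j' _ hjj
        rw [Function.onFun, disjoint_left]
        intro s hs hs'
        rw [mem_filter] at hs hs'
        have h3 := hsum _ s hs.1
        have h4 := hsum _ s hs'.1
        exact hjj (by omega)
    have htot : ∑ s ∈ G, μ s = M := by
      have h5 := hdisj (fun _ => True)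
      simp only [filter_true] at h5
      rw [h5]
      have h6 : ∀ j ∈ range M, (#(Run7.h867.MZ.A (w - 2 + j)) : ℝ) / 2 ^ (w - 2 + j) = 1 := by
        intro j _
        rw [Run7.h867.MZ.card_A]
        push_cast
        exact div_self (by positivity)
      rw [sum_congr rfl h6]
      simp
    have hGA : ∀ s ∈ G, ∃ k, s ∈ Run7.h867.MZ.A k := by
      intro s hs
      rw [hG, mem_biUnion] at hs
      obtain ⟨j, _, hj⟩ := hs
      exact ⟨_, hj⟩
    have hmain := Run7.h867.GT.main_w (fun _ : Fin N => G) μ hμ0 Run7.h867.MZ.mz (fun i l hl => by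
        obtain ⟨k, hk⟩ := hGA l hl
        exact (Run7.h867.MZ.mz_pos (Run7.h867.MZ.mem_A.1 hk)).ne') κ hκ0 S H hH hS (fun i x => by
        rw [← hK, htot]
        have h7 := hdisj (fun l => x ≤ Real.logb 2 |Run7.h867.MZ.mz l| ∧ Real.logb 2 |Run7.h867.MZ.mz l| ≤ x + 2 * K)
        rw [h7]
        have h8 := Run7.h867.TW.window hm (l := 10 * m) (r := w - 2 - 10 * m) le_rfl (by omega) x (2 * K)
          (by positivity) M
        have h9 : ∀ j ∈ range M, (#((Run7.h867.MZ.A (w - 2 + j)).filter fun l =>
            x ≤ Real.logb 2 |Run7.h867.MZ.mz l| ∧ Real.logb 2 |Run7.h867.MZ.mz l| ≤ x + 2 * K) : ℝ) / 2 ^ (w - 2 + j) =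
            (#((Run7.h867.MZ.A (10 * m + (j + (w - 2 - 10 * m)))).filter fun l =>
            x ≤ Real.logb 2 |Run7.h867.MZ.mz l| ∧ Real.logb 2 |Run7.h867.MZ.mz l| ≤ x + 2 * K) : ℝ) /
            2 ^ (10 * m + (j + (w - 2 - 10 * m))) := by
          intro j _
          rw [show 10 * m + (j + (w - 2 - 10 * m)) = w - 2 + j by omega]
        rw [sum_congr rfl h9]
        refine h8.trans (le_of_eq ?_)
        rw [hκ]
        field_simp)
    have hsub : ∀ W : Fin N → ℕ, (∀ i, 2 ≤ W i) → exceptional S H W ⊆
        (((Fintype.piFinset fun i => Run7.h867.MZ.A (W i - 2)).filter fun u =>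
        Run7.h867.GT.Bad S H fun i => Run7.h867.MZ.mz (u i) : Finset (Fin N → List ℕ)) : Set (Fin N → List ℕ)) := by
      intro W hW u hu
      obtain ⟨hu1, P, hP0, hP, hc, hor⟩ := hu
      rw [mem_coe, mem_filter, Fintype.mem_piFinset]
      have hmem : ∀ i, u i ∈ Run7.h867.MZ.A (W i - 2) := by
        intro i
        have := hu1 i
        rw [hind (W i) (hW i), mem_coe] at this
        exact this
      refine ⟨hmem, P, hP0, hP, hc, ?_⟩
      simp only [zeta_same] at hor
      exact hor
    have hW2 : ∀ W ∈ Fintype.piFinset fun _ : Fin N => Finset.Ico w (w + M), ∀ i, 2 ≤ W i := by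
      intro W hW i
      have := mem_Ico.1 (Fintype.mem_piFinset.1 hW i)
      omega
    refine ⟨fun W hW => (Finset.finite_toSet _).subset (hsub W (hW2 W hW)), ?_⟩
    calc ∑ W ∈ Fintype.piFinset fun _ : Fin N => Finset.Ico w (w + M),
          ((exceptional S H W).ncard : ℝ) / ∏ i, (2 ^ (W i - 2) : ℝ)
        ≤ ∑ W ∈ Fintype.piFinset fun _ : Fin N => Finset.Ico w (w + M),
          ∑ u ∈ (Fintype.piFinset fun i => Run7.h867.MZ.A (W i - 2)).filter fun u =>
            Run7.h867.GT.Bad S H fun i => Run7.h867.MZ.mz (u i), ∏ i, μ (u i) := by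
          refine sum_le_sum fun W hW => ?_
          have h1 := Set.ncard_le_ncard (hsub W (hW2 W hW)) (Finset.finite_toSet _)
          rw [Set.ncard_coe_finset] at h1
          have h2 : ∀ u ∈ (Fintype.piFinset fun i => Run7.h867.MZ.A (W i - 2)).filter fun u =>
              Run7.h867.GT.Bad S H fun i => Run7.h867.MZ.mz (u i), ∏ i, μ (u i) = 1 / ∏ i, (2 ^ (W i - 2) : ℝ) := by
            intro u hu
            rw [mem_filter, Fintype.mem_piFinset] at hu
            rw [hμ, one_div, ← prod_inv_distrib]
            refine prod_congr rfl fun i _ => ?_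
            simp only
            rw [hsum _ _ (hu.1 i), show W i - 2 + 2 - 2 = W i - 2 by omega, one_div]
          rw [sum_congr rfl h2, sum_const, nsmul_eq_mul, mul_one_div]
          refine div_le_div_of_nonneg_right ?_ (prod_nonneg fun i _ => by positivity)
          exact_mod_cast h1
      _ = ∑ u ∈ (Fintype.piFinset fun _ : Fin N => Finset.Ico w (w + M)).biUnion fun W =>
          (Fintype.piFinset fun i => Run7.h867.MZ.A (W i - 2)).filter fun u =>
            Run7.h867.GT.Bad S H fun i => Run7.h867.MZ.mz (u i), ∏ i, μ (u i) := by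
          rw [sum_biUnion]
          intro W hW W' hW' hne
          rw [Function.onFun, disjoint_left]
          intro u hu hu'
          apply hne
          rw [mem_filter, Fintype.mem_piFinset] at hu hu'
          funext i
          have h3 := hsum _ _ (hu.1 i)
          have h4 := hsum _ _ (hu'.1 i)
          have h5 := hW2 W hW i
          have h6 := hW2 W' hW' i
          omega
      _ ≤ ∑ u ∈ (Fintype.piFinset fun _ : Fin N => G).filter fun u =>
            Run7.h867.GT.Bad S H fun i => Run7.h867.MZ.mz (u i), ∏ i, μ (u i) := by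
          refine sum_le_sum_of_subset_of_nonneg ?_ fun u _ _ => prod_nonneg fun i _ => hμ0 _
          intro u hu
          rw [mem_biUnion] at hu
          obtain ⟨W, hW, hu⟩ := hu
          rw [mem_filter, Fintype.mem_piFinset] at hu
          rw [mem_filter, Fintype.mem_piFinset]
          refine ⟨fun i => ?_, hu.2⟩
          have h7 := mem_Ico.1 (Fintype.mem_piFinset.1 hW i)
          rw [hG, mem_biUnion]
          refine ⟨W i - w, mem_range.2 (by omega), ?_⟩
          have h8 := hu.1 i
          rw [show w - 2 + (W i - w) = W i - 2 by omega]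
          exact h8
      _ ≤ _ := hmain
      _ = _ := by
          rw [htot, prod_const, card_univ, Fintype.card_fin, hκ, hK]

end Pool.Agent.Results.MP_4d52ff_nt.TypicalWeights
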